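import Pool.Agent.Q2N.Stmts

/-!
# SEP: an element with finitely supported expansion is a Laurent polynomial
-/

set_option autoImplicit false

namespace Pool.Agent.Q2N.H71

open Pool.Agent.UW

variable {K : Type} [Field K] {φ : RingAut K}

theorem fin_RR (d : DD φ) (b : ℤ) (h : ∀ i, b < i → (ψ φ d).coeff i = 0) : d ∈ RR φ := by
  obtain ⟨a, ha⟩ := (ψ φ d).bdd
  set q : DD φ := ∑ i ∈ Finset.Icc a b, mo φ ((ψ φ d).coeff i) i with hq
  have hqR : q ∈ RR φ := Subring.sum_mem _ fun i _ => mo_mem _ _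
  have h1 : ψ φ (d - q) = 0 := by
    ext j
    rw [map_sub, sub_eq_add_neg, SkewLaurent.coeff_add, SkewLaurent.coeff_neg, hq, map_sum,
      SkewLaurent.coeff_sum, SkewLaurent.coeff_zero]
    simp only [ψ_mo, sgl_coeff]
    rw [Finset.sum_ite_eq]
    by_cases hj : j ∈ Finset.Icc a b
    · rw [if_pos hj, add_neg_cancel]
    · rw [if_neg hj, neg_zero, add_zero]
      rw [Finset.mem_Icc, not_and_or, not_le, not_le] at hj
      rcases hj with hj | hj
      · exact ha j hj
      · exact h j hj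
  rw [sub_eq_zero.1 (ψ_inj h1)]
  exact hqR

theorem fin_RR' (d : DD φ) (b : ℤ) (h : ∀ i, b < i → (ψ' φ d).coeff i = 0) : d ∈ RR φ := by
  obtain ⟨a, ha⟩ := (ψ' φ d).bdd
  set q : DD φ := ∑ i ∈ Finset.Icc a b, mo φ ((ψ' φ d).coeff i) (-i) with hq
  have hqR : q ∈ RR φ := Subring.sum_mem _ fun i _ => mo_mem _ _
  have h1 : ψ' φ (d - q) = 0 := by
    ext j
    rw [map_sub, sub_eq_add_neg, SkewLaurent.coeff_add, SkewLaurent.coeff_neg, hq, map_sum,
      SkewLaurent.coeff_sum, SkewLaurent.coeff_zero]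
    simp only [ψ'_mo, sgl_coeff, neg_neg]
    rw [Finset.sum_ite_eq]
    by_cases hj : j ∈ Finset.Icc a b
    · rw [if_pos hj, add_neg_cancel]
    · rw [if_neg hj, neg_zero, add_zero]
      rw [Finset.mem_Icc, not_and_or, not_le, not_le] at hj
      rcases hj with hj | hj
      · exact ha j hj
      · exact h j hj
  rw [sub_eq_zero.1 (ψ'_inj h1)]
  exact hqR

theorem sep : SepStmt := by
  intro K _ φ d j0
  constructor
  · intro h
    obtain ⟨a, ha⟩ := (ψ' φ d).bdd
    refine fin_RR d (max (j0 - 1) (-a)) fun i hi => ?_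
    have h1 := h i (by have := le_max_left (j0 - 1) (-a); lia)
    rw [del_apply, ha (-i) (by have := le_max_right (j0 - 1) (-a); lia), sub_zero] at h1
    exact h1
  · intro h
    obtain ⟨a, ha⟩ := (ψ φ d).bdd
    refine fin_RR' d (max (-j0 - 1) (-a)) fun i hi => ?_
    have h1 := h (-i) (by have := le_max_left (-j0 - 1) (-a); lia)
    rw [del_apply, ha (-i) (by have := le_max_right (-j0 - 1) (-a); lia), neg_neg, zero_sub,
      neg_eq_zero] at h1
    exact h1

end Pool.Agent.Q2N.H71
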