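import Pool.Agent.Q2N.Stmts

/-!
# CPX, REA: real and complex orders
-/

set_option autoImplicit false

set_option linter.unusedSectionVars false

open Module

namespace Pool.Agent.Q2N.H71

section gen

variable {F E D : Type} [Field F] [Field E] [Algebra F E] [DivisionRing D] [Algebra E D]
  [Algebra F D] [IsScalarTower F E D]

theorem pow_le_span {V : Submodule E D} {W : Submodule F D}
    (h : V ≤ Submodule.span E (W : Set D)) (n : ℕ) :
    V ^ n ≤ Submodule.span E ((W ^ n : Submodule F D) : Set D) := by
  induction n with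
  | zero =>
    rw [pow_zero, pow_zero, Submodule.one_le]
    exact Submodule.subset_span (Submodule.one_le.1 le_rfl)
  | succ n ih =>
    rw [pow_succ]
    refine (mul_le_mul' ih h).trans ?_
    rw [Submodule.span_mul_span, Submodule.span_le]
    rintro _ ⟨a, ha, b, hb, rfl⟩
    refine Submodule.subset_span ?_
    show a * b ∈ (W ^ (n + 1) : Submodule F D)
    rw [pow_succ]
    exact Submodule.mul_mem_mul ha hb

theorem basis_sum {F₁ D₁ : Type} [Field F₁] [DivisionRing D₁] [Algebra F₁ D₁]
    (W : Submodule F₁ D₁) [FiniteDimensional F₁ W] (x : D₁) (hx : x ∈ W) :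
    x = ∑ i, ((finBasis F₁ W).repr ⟨x, hx⟩ i) • ((finBasis F₁ W i : W) : D₁) := by
  have h1 : ((∑ i, ((finBasis F₁ W).repr ⟨x, hx⟩ i) • finBasis F₁ W i : W) : D₁) = x :=
    congrArg (fun w : W => (w : D₁)) ((finBasis F₁ W).sum_repr ⟨x, hx⟩)
  conv_lhs => rw [← h1]
  rw [Submodule.coe_sum]
  rfl

theorem span_fd (W : Submodule F D) [FiniteDimensional F W] :
    FiniteDimensional E (Submodule.span E (W : Set D)) ∧
      finrank E (Submodule.span E (W : Set D)) ≤ finrank F W := by
  have h : Submodule.span E (W : Set D) =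
      Submodule.span E (Set.range fun i => ((finBasis F W i : W) : D)) := by
    apply le_antisymm
    · rw [Submodule.span_le]
      intro x hx
      rw [basis_sum W x hx]
      refine Submodule.sum_mem _ fun i _ => ?_
      rw [← algebraMap_smul E]
      exact Submodule.smul_mem _ _ (Submodule.subset_span ⟨i, rfl⟩)
    · rw [Submodule.span_le]
      rintro _ ⟨i, rfl⟩
      exact Submodule.subset_span (finBasis F W i).2
  rw [h]
  refine ⟨FiniteDimensional.span_of_finite E (Set.finite_range _), ?_⟩
  refine (finrank_range_le_card _).trans ?_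
  rw [Fintype.card_fin]

theorem fd_pow {F₁ D₁ : Type} [Field F₁] [Ring D₁] [Algebra F₁ D₁] (W : Submodule F₁ D₁)
    [FiniteDimensional F₁ W] (n : ℕ) : FiniteDimensional F₁ (W ^ n : Submodule F₁ D₁) := by
  have h : W.FG := (Submodule.fg_iff_finiteDimensional W).2 inferInstance
  exact (Submodule.fg_iff_finiteDimensional _).1 (h.pow n)

theorem finrank_pow_le {V : Submodule E D} {W : Submodule F D} [FiniteDimensional F W]
    (h : V ≤ Submodule.span E (W : Set D)) (n : ℕ) :
    finrank E (V ^ n : Submodule E D) ≤ finrank F (W ^ n : Submodule F D) := by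
  have := fd_pow W n
  obtain ⟨h1, h2⟩ := span_fd (E := E) (W ^ n : Submodule F D)
  exact (Submodule.finrank_mono (pow_le_span h n)).trans h2

/-- a quadratic extension -/
structure Quad (F E : Type) [Field F] [Field E] [Algebra F E] (I : E) : Prop where
  sq : I * I = -1
  gen : ∀ z : E, ∃ a b : F, z = algebraMap F E a + I * algebraMap F E b

/-- the order over `E` generated by an order over `F` -/
def cA {I : E} (hI : Quad F E I) (A' : Subalgebra F D) : Subalgebra E D where
  carrier := {x | ∃ a ∈ A', ∃ b ∈ A', x = a + algebraMap E D I * b}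
  add_mem' := by
    rintro _ _ ⟨a, ha, b, hb, rfl⟩ ⟨c, hc, d, hd, rfl⟩
    refine ⟨a + c, A'.add_mem ha hc, b + d, A'.add_mem hb hd, ?_⟩
    rw [mul_add]
    abel
  mul_mem' := by
    rintro _ _ ⟨a, ha, b, hb, rfl⟩ ⟨c, hc, d, hd, rfl⟩
    refine ⟨a * c - b * d, A'.sub_mem (A'.mul_mem ha hc) (A'.mul_mem hb hd), a * d + b * c,
      A'.add_mem (A'.mul_mem ha hd) (A'.mul_mem hb hc), ?_⟩
    have hI' : algebraMap E D I * algebraMap E D I = -1 := by
      rw [← map_mul, hI.sq, map_neg, map_one]
    have h1 : a * (algebraMap E D I * d) = algebraMap E D I * (a * d) := by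
      rw [← mul_assoc, ← Algebra.commutes, mul_assoc]
    have h2 : algebraMap E D I * b * (algebraMap E D I * d) = -(b * d) := by
      calc algebraMap E D I * b * (algebraMap E D I * d) =
          algebraMap E D I * (b * algebraMap E D I) * d := by
            simp only [mul_assoc]
        _ = algebraMap E D I * (algebraMap E D I * b) * d := by
            rw [Algebra.commutes I b]
        _ = (algebraMap E D I * algebraMap E D I) * (b * d) := by
            simp only [mul_assoc]
        _ = -(b * d) := by rw [hI', neg_one_mul]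
    rw [add_mul, mul_add, mul_add, h1, h2, mul_add, mul_assoc]
    abel
  algebraMap_mem' := by
    intro z
    obtain ⟨a, b, hab⟩ := hI.gen z
    refine ⟨algebraMap F D a, A'.algebraMap_mem _, algebraMap F D b, A'.algebraMap_mem _, ?_⟩
    rw [hab, map_add, map_mul, ← IsScalarTower.algebraMap_apply, ← IsScalarTower.algebraMap_apply]

theorem cpx_gen {I : E} (hI : Quad F E I) (A' : Subalgebra F D) (g : ℝ) (hA' : GKle F A' g) :
    ∃ A : Subalgebra E D, (∀ x, x ∈ A ↔ ∃ a ∈ A', ∃ b ∈ A', x = a + algebraMap E D I * b) ∧
      GKle E A g := by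
  refine ⟨cA hI A', fun x => Iff.rfl, ?_⟩
  intro V hV hfd h1 ε hε
  classical
  have hb : ∀ i, ∃ x ∈ A', ∃ y ∈ A', ((finBasis E V i : V) : D) = x + algebraMap E D I * y :=
    fun i => hV (finBasis E V i).2
  choose x hx y hy hxy using hb
  let s : Set D := {1} ∪ (Set.range x ∪ Set.range y)
  let W : Submodule F D := Submodule.span F s
  have hW : W ≤ Subalgebra.toSubmodule A' := by
    rw [Submodule.span_le]
    rintro z (hz | ⟨i, rfl⟩ | ⟨i, rfl⟩)
    · rw [Set.mem_singleton_iff.1 hz]
      exact A'.one_mem
    · exact hx i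
    · exact hy i
  have hfin : s.Finite := (Set.finite_singleton _).union ((Set.finite_range _).union
    (Set.finite_range _))
  have hWfd : FiniteDimensional F W := FiniteDimensional.span_of_finite F hfin
  have h1W : (1 : Submodule F D) ≤ W :=
    Submodule.one_le.2 (Submodule.subset_span (Or.inl rfl))
  have hVW : V ≤ Submodule.span E (W : Set D) := by
    intro v hv
    rw [basis_sum V v hv]
    refine Submodule.sum_mem _ fun i _ => Submodule.smul_mem _ _ ?_
    rw [hxy i, ← Algebra.smul_def]
    exact Submodule.add_mem _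
      (Submodule.subset_span (Submodule.subset_span (Or.inr (Or.inl ⟨i, rfl⟩))))
      (Submodule.smul_mem _ _
        (Submodule.subset_span (Submodule.subset_span (Or.inr (Or.inr ⟨i, rfl⟩)))))
  filter_upwards [hA' W hW hWfd h1W ε hε] with n hn
  exact le_trans (by exact_mod_cast finrank_pow_le hVW n) hn

/-! ### REA -/

theorem pow_le_restr (V : Submodule F D) (W : Submodule E D) (h : ∀ x ∈ V, x ∈ W) (n : ℕ) :
    ∀ x ∈ V ^ n, x ∈ W ^ n := by
  induction n with
  | zero =>
    intro x hx
    rw [pow_zero, Submodule.mem_one] at hx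
    obtain ⟨c, rfl⟩ := hx
    rw [pow_zero, Submodule.mem_one]
    exact ⟨algebraMap F E c, (IsScalarTower.algebraMap_apply F E D c).symm⟩
  | succ n ih =>
    intro x hx
    rw [pow_succ] at hx ⊢
    refine Submodule.mul_induction_on hx (fun a ha b hb => ?_) fun a b ha hb => ?_
    · exact Submodule.mul_mem_mul (ih a ha) (h b hb)
    · exact Submodule.add_mem _ ha hb

theorem finrank_restr [FiniteDimensional F E] (V : Submodule F D) (W : Submodule E D)
    [FiniteDimensional E W] (h : ∀ x ∈ V, x ∈ W) (n : ℕ) :
    finrank F (V ^ n : Submodule F D) ≤ finrank F E * finrank E (W ^ n : Submodule E D) := by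
  have hfd := fd_pow W n
  have h1 : V ^ n ≤ (W ^ n : Submodule E D).restrictScalars F := pow_le_restr V W h n
  have h2 : finrank F E * finrank E ((W ^ n : Submodule E D).restrictScalars F) =
      finrank F ((W ^ n : Submodule E D).restrictScalars F) :=
    Module.finrank_mul_finrank F E _
  have h3 : FiniteDimensional E ((W ^ n : Submodule E D).restrictScalars F) := hfd
  have h4 : FiniteDimensional F ((W ^ n : Submodule E D).restrictScalars F) :=
    FiniteDimensional.trans F E _
  have h5 := Submodule.finrank_mono h1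
  rw [← h2] at h5
  exact h5

theorem rea_fg {I : E} (hI : Quad F E I) (A : Subalgebra E D) (hA : A.FG) :
    (A.restrictScalars F).FG := by
  classical
  obtain ⟨s, rfl⟩ := hA
  refine ⟨insert (algebraMap E D I) s, ?_⟩
  apply le_antisymm
  · rw [Algebra.adjoin_le_iff]
    intro x hx
    rw [Finset.coe_insert] at hx
    rcases hx with rfl | hx
    · exact Subalgebra.algebraMap_mem _ I
    · exact Algebra.subset_adjoin hx
  · set T := Algebra.adjoin F ((insert (algebraMap E D I) s : Finset D) : Set D) with hT
    have hIT : algebraMap E D I ∈ T := Algebra.subset_adjoin (by simp)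
    have hsT : ∀ x ∈ s, x ∈ T := fun x hx => Algebra.subset_adjoin (by simp [hx])
    let B : Subalgebra E D := { T.toSubsemiring with
      algebraMap_mem' := by
        intro z
        obtain ⟨a, b, hab⟩ := hI.gen z
        rw [hab, map_add, map_mul, ← IsScalarTower.algebraMap_apply,
          ← IsScalarTower.algebraMap_apply]
        exact T.add_mem (T.algebraMap_mem _) (T.mul_mem hIT (T.algebraMap_mem _)) }
    have h1 : Algebra.adjoin E (s : Set D) ≤ B := Algebra.adjoin_le fun x hx => hsT x hx
    exact fun x hx => h1 hx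

theorem rea_gen {I : E} (hI : Quad F E I) [FiniteDimensional F E] (A : Subalgebra E D)
    (hA : A.FG) (h2 : GKle E A 2) (h3 : GKge E A) :
    (A.restrictScalars F).FG ∧ GKle F (A.restrictScalars F) 2 ∧
      GKge F (A.restrictScalars F) := by
  refine ⟨rea_fg hI A hA, ?_, ?_⟩
  · intro V hV hfd h1 ε hε
    let W : Submodule E D := Submodule.span E (V : Set D)
    have hWfd : FiniteDimensional E W := (span_fd V).1
    have hWA : W ≤ Subalgebra.toSubmodule A := by
      rw [Submodule.span_le]
      intro x hx
      exact hV hx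
    have h1W : (1 : Submodule E D) ≤ W :=
      Submodule.one_le.2 (Submodule.subset_span (Submodule.one_le.1 h1))
    have hVW : ∀ x ∈ V, x ∈ W := fun x hx => Submodule.subset_span hx
    have hlim : ∀ᶠ n : ℕ in Filter.atTop, ((finrank F E : ℕ) : ℝ) ≤ (n : ℝ) ^ (ε / 2) :=
      ((tendsto_rpow_atTop (by linarith : 0 < ε / 2)).comp
        tendsto_natCast_atTop_atTop).eventually_ge_atTop _
    filter_upwards [h2 W hWA hWfd h1W (ε / 2) (by linarith), hlim, Filter.eventually_ge_atTop 1]
      with n hn hn2 hn1
    have h4 := finrank_restr V W hVW n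
    have h5 : (finrank F (V ^ n : Submodule F D) : ℝ) ≤
        (finrank F E : ℝ) * (finrank E (W ^ n : Submodule E D) : ℝ) := by exact_mod_cast h4
    have hn0 : (0 : ℝ) < n := by exact_mod_cast hn1
    calc (finrank F (V ^ n : Submodule F D) : ℝ)
        ≤ (finrank F E : ℝ) * (finrank E (W ^ n : Submodule E D) : ℝ) := h5
      _ ≤ (n : ℝ) ^ (ε / 2) * (n : ℝ) ^ (2 + ε / 2) :=
          mul_le_mul hn2 hn (Nat.cast_nonneg _) (Real.rpow_nonneg hn0.le _)
      _ = (n : ℝ) ^ (2 + ε) := by
          rw [← Real.rpow_add hn0]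
          congr 1
          ring
  · intro d hd
    obtain ⟨V, hV, hfd, h1, ε, hε, hfr⟩ := h3 d hd
    refine ⟨V.restrictScalars F, fun x hx => hV hx, ?_, ?_, ε, hε, ?_⟩
    · have h4 : FiniteDimensional E (V.restrictScalars F) := hfd
      exact FiniteDimensional.trans F E _
    · have h4 : (1 : D) ∈ V := Submodule.one_le.1 h1
      exact Submodule.one_le.2 (show (1 : D) ∈ V.restrictScalars F from h4)
    · have h4 : FiniteDimensional E (V.restrictScalars F) := hfd
      have h5 : FiniteDimensional F (V.restrictScalars F) := FiniteDimensional.trans F E _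
      refine hfr.mono fun n hn => hn.trans_le ?_
      have h6 : V ≤ Submodule.span E ((V.restrictScalars F : Submodule F D) : Set D) :=
        fun x hx => Submodule.subset_span hx
      exact_mod_cast finrank_pow_le h6 n

end gen

theorem quad_C : Quad ℝ ℂ Complex.I where
  sq := Complex.I_mul_I
  gen z := ⟨z.re, z.im, by
    conv_lhs => rw [← Complex.re_add_im z]
    rw [mul_comm]
    rfl⟩

theorem cpx : CpxStmt := by
  intro D _ _ _ _ A' hA'
  exact cpx_gen quad_C A' 2 hA'

theorem rea : ReaStmt := by
  intro D _ _ _ _ A hA h2 h3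
  exact rea_gen quad_C A hA h2 h3

end Pool.Agent.Q2N.H71
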